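import Pool.Agent.helper87.FS.Spec

set_option autoImplicit false

namespace Pool.Agent.FS

open Polynomial Matrix Pool.Agent.helper42.NS

theorem STG_pt (h1 : CNB_stmt) (P : Pt) (t k : ℕ) (H : Matrix (Fin t) (Fin t) ℤ)
    (B : Fin k → Fin t → Bool) (hc : crm P H B = 1) :
    Set.ncard {bz : (Fin t → Bool) × (Fin k → Bool) | Bth (KP P) (lamP P) H B bz.1 bz.2} * 2 ^ (k + 1) ≤
      2 ^ (t + k) := by
  haveI := P.isMaximal
  letI : Field (KP P) := Ideal.Quotient.field P.asIdeal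
  have h := h1 (KP P) (lamP P) t k H B
  have h2 : Module.finrank (KP P) (EM (KP P) (lamP P) H B) = 1 := hc
  rw [h2] at h
  exact h

theorem STG_mv (h2 : MVT_stmt) (P : Pt) (t k : ℕ) (H : Matrix (Fin t) (Fin t) ℤ)
    (B : Fin k → Fin t → Bool) (b : Fin t → Bool) (z : Fin k → Bool) (hc : crm P H B ≤ 1)
    (h : 1 < crm P (bord H (ind b)) (cz z B)) :
    crm P H B ≠ 0 ∧ Bth (KP P) (lamP P) H B b z := by
  haveI := P.isMaximal
  letI : Field (KP P) := Ideal.Quotient.field P.asIdeal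
  obtain ⟨h3, h4⟩ := h2 (KP P) (lamP P) t k H B b z
  have h3' : crm P (bord H (ind b)) (cz z B) ≤ crm P H B + 1 := h3
  refine ⟨by omega, ?_⟩
  by_contra hB
  have h4' : crm P (bord H (ind b)) (cz z B) ≤ crm P H B := h4 hB
  omega

theorem STG (h1 : CNB_stmt) (h2 : MVT_stmt) : STG_stmt := by
  classical
  intro t k M H B Q hQ hM
  have hfin : {P : Pt | Q P ∧ crm P H B ≠ 0}.Finite := by
    by_contra hinf
    obtain ⟨s, hs, hcard⟩ := Set.Infinite.exists_subset_card_eq (hs := hinf) (M + 1)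
    have := hM s (fun P hP => hs hP)
    omega
  set F := hfin.toFinset with hF
  have hFm : ∀ P, P ∈ F ↔ Q P ∧ crm P H B ≠ 0 := by
    intro P; rw [hF, Set.Finite.mem_toFinset]; rfl
  have hFc : F.card ≤ M := hM F (fun P hP => (hFm P).mp hP)
  have hsub : {bz : (Fin t → Bool) × (Fin k → Bool) |
      ∃ P, Q P ∧ 1 < crm P (bord H (ind bz.1)) (cz bz.2 B)} ⊆
      ((F.biUnion fun P => Finset.univ.filter
        (fun bz : (Fin t → Bool) × (Fin k → Bool) => Bth (KP P) (lamP P) H B bz.1 bz.2) :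
          Finset ((Fin t → Bool) × (Fin k → Bool))) : Set ((Fin t → Bool) × (Fin k → Bool))) := by
    rintro bz ⟨P, hP, hlt⟩
    obtain ⟨h3, h4⟩ := STG_mv h2 P t k H B bz.1 bz.2 (hQ P hP) hlt
    rw [Finset.mem_coe, Finset.mem_biUnion]
    exact ⟨P, (hFm P).mpr ⟨hP, h3⟩, Finset.mem_filter.mpr ⟨Finset.mem_univ _, h4⟩⟩
  have hle := Set.ncard_le_ncard hsub (Finset.finite_toSet _)
  rw [Set.ncard_coe_finset] at hle
  have hle2 := hle.trans Finset.card_biUnion_le
  calc Set.ncard {bz : (Fin t → Bool) × (Fin k → Bool) |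
      ∃ P, Q P ∧ 1 < crm P (bord H (ind bz.1)) (cz bz.2 B)} * 2 ^ (k + 1)
      ≤ (∑ P ∈ F, (Finset.univ.filter
        (fun bz : (Fin t → Bool) × (Fin k → Bool) => Bth (KP P) (lamP P) H B bz.1 bz.2)).card) * 2 ^ (k + 1) :=
        Nat.mul_le_mul_right _ hle2
    _ = ∑ P ∈ F, (Finset.univ.filter
        (fun bz : (Fin t → Bool) × (Fin k → Bool) => Bth (KP P) (lamP P) H B bz.1 bz.2)).card * 2 ^ (k + 1) := by
        rw [Finset.sum_mul]
    _ ≤ ∑ _P ∈ F, 2 ^ (t + k) := by
        refine Finset.sum_le_sum fun P hP => ?_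
        have hP' := (hFm P).mp hP
        have hc : crm P H B = 1 := by
          have := hQ P hP'.1
          omega
        have h5 := STG_pt h1 P t k H B hc
        have h6 : Set.ncard {bz : (Fin t → Bool) × (Fin k → Bool) | Bth (KP P) (lamP P) H B bz.1 bz.2} =
            (Finset.univ.filter
              (fun bz : (Fin t → Bool) × (Fin k → Bool) => Bth (KP P) (lamP P) H B bz.1 bz.2)).card := by
          rw [← Set.ncard_coe_finset]
          simp
        rw [h6] at h5
        exact h5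
    _ = F.card * 2 ^ (t + k) := by rw [Finset.sum_const, smul_eq_mul]
    _ ≤ M * 2 ^ (t + k) := Nat.mul_le_mul_right _ hFc

end Pool.Agent.FS
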